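import Pool.Agent.Helper57.ZF.Goals

/-!
# Project ZF: packet NETP
-/

set_option autoImplicit false

namespace Pool.Agent.Helper13.ZF

open Pool.Agent.Helper57.ZF

/-- Counting over a cover. -/
theorem cnt_le_sum {α ι : Type} (s : Finset α) (S : Finset ι) (q : α → Prop) (q' : ι → α → Prop)
    (h : ∀ x ∈ s, q x → ∃ B ∈ S, q' B x) : cnt s q ≤ ∑ B ∈ S, cnt s (q' B) := by
  classical
  simp only [cnt_eq]
  refine le_trans (Finset.card_le_card ?_) Finset.card_biUnion_le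
  intro x hx
  rw [Finset.mem_filter] at hx
  obtain ⟨B, hB, hq⟩ := h x hx.1 hx.2
  exact Finset.mem_biUnion.mpr ⟨B, hB, Finset.mem_filter.mpr ⟨hx.1, hq⟩⟩

/-- Pigeonhole with real weights. -/
theorem pigeon {ι : Type} (S : Finset ι) (N0 : ℕ) (hS : S.card ≤ N0) (a : ι → ℕ) (c : ℝ)
    (hc : 0 < c) (h : c ≤ ((∑ B ∈ S, a B : ℕ) : ℝ)) :
    ∃ B ∈ S, c ≤ ((N0 + 1 : ℕ) : ℝ) * a B := by
  by_contra hcon
  push Not at hcon
  have h1 : ∑ B ∈ S, ((N0 + 1 : ℕ) : ℝ) * a B ≤ ∑ _B ∈ S, c :=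
    Finset.sum_le_sum fun B hB => (hcon B hB).le
  rw [Finset.sum_const, nsmul_eq_mul, ← Finset.mul_sum] at h1
  have h2 : (S.card : ℝ) * c ≤ N0 * c :=
    mul_le_mul_of_nonneg_right (by exact_mod_cast hS) hc.le
  have h3 : ((N0 + 1 : ℕ) : ℝ) * c ≤ ((N0 + 1 : ℕ) : ℝ) * ∑ B ∈ S, (a B : ℝ) := by
    refine mul_le_mul_of_nonneg_left ?_ (by positivity)
    rw [← Nat.cast_sum]
    exact h
  have h4 : ((N0 + 1 : ℕ) : ℝ) * c ≤ N0 * c := h3.trans (h1.trans h2)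
  push_cast at h4
  linarith

theorem NETP (hM : G_MSEP) : G_NETP := by
  classical
  intro X _ hD Λ
  obtain ⟨N0, hN0⟩ := hD Λ
  refine ⟨N0 + 1, Nat.succ_pos _, ?_⟩
  intro α β W F R s A r c hr hF hW
  have key : ∀ B : X, (c ≤ 0 ∨ W = ∅) → (W.card : ℝ) ≤
      ((N0 + 1 : ℕ) : ℝ) * cnt W (fun p => c ≤ ((N0 + 1 : ℕ) : ℝ) *
        cnt F (fun f => R p f ∧ dist (s f) B ≤ r)) := by
    intro B h
    rcases h with h | h
    · have h1 : cnt W (fun p => c ≤ ((N0 + 1 : ℕ) : ℝ) *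
          cnt F (fun f => R p f ∧ dist (s f) B ≤ r)) = W.card := by
        rw [cnt_eq, Finset.filter_true_of_mem]
        intro p _
        exact h.trans (by positivity)
      rw [h1]
      have h2 : (1 : ℝ) ≤ ((N0 + 1 : ℕ) : ℝ) := by exact_mod_cast Nat.succ_pos N0
      calc (W.card : ℝ) = 1 * W.card := (one_mul _).symm
        _ ≤ _ := mul_le_mul_of_nonneg_right h2 (by positivity)
    · rw [h]
      simp only [Finset.card_empty, Nat.cast_zero]
      positivity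
  by_cases hcase : c ≤ 0 ∨ W = ∅
  · obtain ⟨f0, hf0⟩ := hF
    exact ⟨s f0, Finset.mem_image_of_mem s hf0, key _ hcase⟩
  · push Not at hcase
    obtain ⟨hc, hWne⟩ := hcase
    obtain ⟨S, hST, hsep, hdom⟩ := hM X ((F.filter fun f => dist (s f) A ≤ Λ * r).image s) r hr
    have hTA : ∀ x ∈ S, dist x A ≤ Λ * r ∧ x ∈ F.image s := by
      intro x hx
      obtain ⟨f, hf, hfx⟩ := Finset.mem_image.mp (hST hx)
      rw [Finset.mem_filter] at hf
      rw [← hfx]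
      exact ⟨hf.2, Finset.mem_image_of_mem s hf.1⟩
    have hScard : S.card ≤ N0 := hN0 r A S hr (fun x hx => (hTA x hx).1) hsep
    have h1 : ∀ p ∈ W, ∃ B ∈ S, c ≤ ((N0 + 1 : ℕ) : ℝ) *
        cnt F (fun f => R p f ∧ dist (s f) B ≤ r) := by
      intro p hp
      refine pigeon S N0 hScard _ c hc ((hW p hp).trans ?_)
      exact_mod_cast cnt_le_sum F S _ (fun B f => R p f ∧ dist (s f) B ≤ r) fun f hf hq => by
        obtain ⟨B, hB, hd⟩ := hdom (s f)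
          (Finset.mem_image_of_mem s (Finset.mem_filter.mpr ⟨hf, hq.2⟩))
        exact ⟨B, hB, hq.1, hd.le⟩
    have hWpos : (0 : ℝ) < W.card := by
      exact_mod_cast Finset.card_pos.mpr hWne
    have h2 : (W.card : ℝ) ≤ ((∑ B ∈ S, cnt W (fun p => c ≤ ((N0 + 1 : ℕ) : ℝ) *
        cnt F (fun f => R p f ∧ dist (s f) B ≤ r)) : ℕ) : ℝ) := by
      have h3 := cnt_le_sum W S (fun _ => True) (fun B p => c ≤ ((N0 + 1 : ℕ) : ℝ) *
        cnt F (fun f => R p f ∧ dist (s f) B ≤ r)) fun p hp _ => h1 p hp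
      rw [cnt_eq, Finset.filter_true_of_mem fun _ _ => trivial] at h3
      exact_mod_cast h3
    obtain ⟨B, hB, hle⟩ := pigeon S N0 hScard _ _ hWpos h2
    exact ⟨B, (hTA B hB).2, hle⟩

end Pool.Agent.Helper13.ZF
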